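import Pool.Agent.H7.GT.Stmts

set_option autoImplicit false

open Finset

namespace Pool.GT7

open Pool.Agent.H23.KT Pool.Agent.H46.KW Pool.KQ

theorem SUM_thm (h1 : GCOStmt) (h2 : CCKStmt) : SUMStmt := by
  intro V _ G p w r a e C W P U hP hS he he' hCB z hz
  obtain ⟨c1, -, -, -⟩ := h2 G p w r a e C W P U hP hS he he' hCB z hz
  obtain ⟨-, g2, -, -, g5, -⟩ := h1 p w r hP
  set b : ℝ := 1 / ((p : ℝ) + 3) with hb
  have hb0 : 0 ≤ b := by positivity
  have key : ∀ L ∈ clq G (un P) (p + 3), ((nb G L z).card.choose (w + 1) : ℝ) ≤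
      (p + 2).choose (w + 1) * ((1 - b) * ww p r (nb G L z).card +
        b * (if (nb G L z).card = p + 2 then 1 else 0)) := by
    intro L hL
    have h3 := c1 L hL
    by_cases h4 : (nb G L z).card = p + 2
    · rw [h4, if_pos rfl, g2]
      have : (1 - b) * 1 + b * 1 = 1 := by ring
      rw [this, mul_one]
    · rw [if_neg h4, mul_zero, add_zero]
      have h5 := g5 (nb G L z).card (by omega)
      calc ((nb G L z).card.choose (w + 1) : ℝ) ≤ _ := h5
        _ = _ := by ring
  refine (Finset.sum_le_sum key).trans (le_of_eq ?_)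
  rw [← Finset.mul_sum, Finset.sum_add_distrib, ← Finset.mul_sum, ← Finset.mul_sum, TZ, cc]
  congr 2
  congr 1
  rw [Finset.sum_ite, Finset.sum_const_zero, add_zero, Finset.sum_const, nsmul_eq_mul, mul_one]

end Pool.GT7
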